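import Pool.Agent.helper18.HG.Spec

/-! # Growth -/

set_option autoImplicit false

namespace Pool.Agent.helper18.HG

open Finset

theorem GRW : GRW_stmt := by
  intro C A hA
  have h := tendsto_pow_const_div_const_pow_of_one_lt C (one_lt_two : (1 : ℝ) < 2)
  have hpos : (0 : ℝ) < 1 / (A * 2 ^ (C + 1)) := by positivity
  have h1 := h.eventually (gt_mem_nhds hpos)
  obtain ⟨k₁, hk₁⟩ := Filter.eventually_atTop.1 h1
  refine ⟨max k₁ (C + 1), ?_⟩
  intro k hk s hs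
  have hk1 := hk₁ k (le_trans (le_max_left _ _) hk)
  have hkC : C + 1 ≤ k := le_trans (le_max_right _ _) hk
  have hs' : (2 : ℝ) ≤ s := by exact_mod_cast hs
  have hs0 : (0 : ℝ) < s := by linarith
  obtain ⟨m, rfl⟩ : ∃ m, k = m + (C + 1) := ⟨k - (C + 1), by omega⟩
  rw [div_lt_div_iff₀ (by positivity) (by positivity), one_mul, pow_add (2 : ℝ) m (C + 1)] at hk1
  have h3 : A * (((m + (C + 1) : ℕ) : ℝ)) ^ C < 2 ^ m := by
    have h4 : (A * (((m + (C + 1) : ℕ) : ℝ)) ^ C) * 2 ^ (C + 1) < 2 ^ m * 2 ^ (C + 1) := by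
      calc (A * (((m + (C + 1) : ℕ) : ℝ)) ^ C) * 2 ^ (C + 1)
          = (((m + (C + 1) : ℕ) : ℝ)) ^ C * (A * 2 ^ (C + 1)) := by ring
        _ < _ := hk1
    exact lt_of_mul_lt_mul_right h4 (by positivity)
  have h4 : (2 : ℝ) ^ m ≤ (s : ℝ) ^ m := pow_le_pow_left₀ (by norm_num) hs' m
  have h5 : m + (C + 1) - 1 = m + C := by omega
  rw [h5, pow_add, mul_pow]
  calc A * ((((m + (C + 1) : ℕ) : ℝ)) ^ C * (s : ℝ) ^ C)
      = (A * (((m + (C + 1) : ℕ) : ℝ)) ^ C) * (s : ℝ) ^ C := by ring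
    _ < (s : ℝ) ^ m * (s : ℝ) ^ C := mul_lt_mul_of_pos_right (h3.trans_le h4) (by positivity)

end Pool.Agent.helper18.HG
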